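import Pool.Agent.Obst.FPT

/-!
# Computing `AVOIDS` is W[1]-hard for a fixed finite set of obstacles
-/

namespace Pool.Agent.Results.MP_5713c3_lc.W1Hard

open Pool.Agent.Obst

/-- There is a finite set `Obs` of obstacles such that
* some polynomial-time function `R` maps every graph `G` and number `k` to the orientation table of
  a configuration `S` with `AVOIDS(Obs; S) ≤ K(k)`, and with equality if and only if `G` has a
  clique with `k` vertices, where `K(k) = 31 + 16 (5 (k + 3)² + (k + 3)³)`;
* if computing `AVOIDS(Obs; S)` is fixed-parameter tractable with respect to its natural parameter,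
  then k-Clique is fixed-parameter tractable. -/
theorem result : ∃ Obs : Finset Config,
    (∃ R : List Bool → List Bool,
      Nonempty (Turing.TM2ComputableInPolyTime (id : List Bool → List Bool)
        (id : List Bool → List Bool) R) ∧
      ∀ (n : ℕ) (G : SimpleGraph (Fin n)) (k : ℕ), ∃ P : PointList,
        R (encClique G k) = P.enc ∧
        AVOIDS Obs P.conf ≤ 31 + 16 * (5 * (k + 3) ^ 2 + (k + 3) ^ 3) ∧
        (AVOIDS Obs P.conf = 31 + 16 * (5 * (k + 3) ^ 2 + (k + 3) ^ 3) ↔ ¬ G.CliqueFree k)) ∧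
    (AvoidsFPT Obs → CliqueFPT) := by
  obtain ⟨Obs, hObs⟩ := exists_obs
  refine ⟨Obs, ⟨Con.Rd, Con.pfBits_Rd.polyTime, ?_⟩, clique_of_avoids Obs hObs⟩
  intro n G k
  obtain ⟨P, h1, h2, -, h3⟩ := reduction_facts Obs hObs G k
  have e : Con.KK (k + 3) = 31 + 16 * (5 * (k + 3) ^ 2 + (k + 3) ^ 3) := by
    unfold Con.KK
    ring
  rw [e] at h2 h3
  exact ⟨P, h1, h2, h3⟩

end Pool.Agent.Results.MP_5713c3_lc.W1Hard
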